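import Mathlib

/-!
Hamming blow-up on the cube (Talagrand / Amir-Milman), for MP_7fc85e_an.
-/

open Finset

namespace Pool.Agent.Helper18.SB

/-- Elementary inequality behind the induction. -/
lemma two_point {t a b S0 S1 K : ℝ} (ht : 0 ≤ t) (hb : 0 ≤ b) (hab : b ≤ a) (hK : 0 ≤ K)
    (h1 : S1 * a ≤ K) (h0 : S0 * b ≤ K) (h2 : S0 * a ≤ Real.exp t * K) :
    (S0 + S1) * (a + b) ≤ K * (2 + Real.exp t + Real.exp (-t)) := by
  have he : 1 ≤ Real.exp t := Real.one_le_exp ht
  have hee : Real.exp t * Real.exp (-t) = 1 := by rw [← Real.exp_add]; simp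
  have hpos : 0 < Real.exp (-t) := Real.exp_pos _
  have hle1 : Real.exp (-t) ≤ 1 := by
    rw [Real.exp_le_one_iff]; linarith
  rcases eq_or_lt_of_le (le_trans hb hab) with ha | ha
  · have hb' : b = 0 := by linarith
    rw [← ha, hb']
    have : 0 ≤ K * (2 + Real.exp t + Real.exp (-t)) := by positivity
    simpa using this
  · -- write r = b / a
    set E := Real.exp t with hE
    set F := Real.exp (-t) with hF
    rcases le_or_gt (F * a) b with hr | hr
    · -- b ≥ F a
      have hbpos : 0 < b := lt_of_lt_of_le (by positivity) hr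
      -- S1 (a+b) ≤ K (1 + b / a), S0 (a+b) ≤ K (1 + a/b)
      have e1 : S1 ≤ K / a := by rw [le_div_iff₀ ha]; exact h1
      have e0 : S0 ≤ K / b := by rw [le_div_iff₀ hbpos]; exact h0
      have h3 : (S0 + S1) * (a + b) ≤ (K / b + K / a) * (a + b) := by gcongr
      have h4 : (K / b + K / a) * (a + b) = K * (2 + (a / b + b / a)) := by
        field_simp; ring
      have h5 : a / b + b / a ≤ E + F := by
        have hbE : a ≤ E * b := by
          have := mul_le_mul_of_nonneg_left hr (by positivity : 0 ≤ E)
          nlinarith [this, hee]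
        rw [div_add_div _ _ hbpos.ne' ha.ne', div_le_iff₀ (by positivity)]
        -- a*a + b*b ≤ (E+F) * (b*a);  (E b - a)(b - F a)≥0 : E b² - EF ab... 
        nlinarith [mul_nonneg (sub_nonneg.2 hbE) (sub_nonneg.2 hr),
          mul_nonneg (sub_nonneg.2 hab) (sub_nonneg.2 hbE), mul_nonneg (sub_nonneg.2 hab) (sub_nonneg.2 hr),
          mul_nonneg ha.le hbpos.le, mul_nonneg (sub_nonneg.2 he) hbpos.le]
      calc (S0 + S1) * (a + b) ≤ K * (2 + (a / b + b / a)) := by rw [← h4]; exact h3
        _ ≤ K * (2 + E + F) := by
            apply mul_le_mul_of_nonneg_left _ hK; linarith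
    · have e1 : S1 ≤ K / a := by rw [le_div_iff₀ ha]; exact h1
      have e0 : S0 ≤ E * K / a := by rw [le_div_iff₀ ha]; exact h2
      have h3 : (S0 + S1) * (a + b) ≤ (E * K / a + K / a) * (a + F * a) := by
        gcongr
      have h4 : (E * K / a + K / a) * (a + F * a) = K * (1 + E + F + E * F) := by
        field_simp; ring
      rw [h4, hee] at h3
      linarith

/-- The exponential moment of the distance to a set, in the form of an inequality for every
minorant `g` of `exp (t d(x,y))`, `y ∈ A`. -/
lemma exp_moment (t : ℝ) (ht : 0 ≤ t) : ∀ (N : ℕ) (A : Finset (Fin N → Bool))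
    (g : (Fin N → Bool) → ℝ), (∀ x, 0 ≤ g x) →
    (∀ x, ∀ y ∈ A, g x ≤ Real.exp (t * (hammingDist x y : ℝ))) →
    (∑ x, g x) * A.card ≤ (2 + Real.exp t + Real.exp (-t)) ^ N := by
  intro N
  induction N with
  | zero =>
    intro A g hg h
    rcases A.eq_empty_or_nonempty with rfl | ⟨y, hy⟩
    · simp
    · have hcard : A.card ≤ 1 := by
        rw [Finset.card_le_one]
        intro a _ b _
        exact Subsingleton.elim _ _
      have h1 := h y y hy
      simp only [hammingDist_self, Nat.cast_zero, mul_zero, Real.exp_zero] at h1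
      have hs : ∑ x, g x = g y := by
        rw [Fintype.sum_eq_single y]
        intro x hx
        exact absurd (Subsingleton.elim _ _) hx
      rw [hs, pow_zero]
      have hc : (A.card : ℝ) ≤ 1 := by exact_mod_cast hcard
      nlinarith [hg y]
  | succ N ih =>
    intro A g hg h
    set K := (2 + Real.exp t + Real.exp (-t)) ^ N with hK
    have hKpos : 0 ≤ K := by positivity
    let Sec : Bool → Finset (Fin N → Bool) := fun b =>
      univ.filter fun y => (Fin.cons b y : Fin (N + 1) → Bool) ∈ A
    have hmem : ∀ b y, y ∈ Sec b ↔ (Fin.cons b y : Fin (N + 1) → Bool) ∈ A := by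
      intro b y; simp [Sec]
    let S : Bool → ℝ := fun b => ∑ x : Fin N → Bool, g (Fin.cons b x)
    have hsum : ∑ x, g x = S false + S true := by
      have := Fintype.sum_equiv (Fin.consEquiv (fun _ : Fin (N + 1) => Bool)).symm g
        (fun p => g (Fin.cons p.1 p.2)) (by intro x; simp [Fin.consEquiv])
      rw [this, Fintype.sum_prod_type]
      simp [S, add_comm]
    have hcard : A.card = (Sec false).card + (Sec true).card := by
      have e1 : A.card = ∑ x : Fin (N + 1) → Bool, if x ∈ A then 1 else 0 := by
        simp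
      have e2 := Fintype.sum_equiv (Fin.consEquiv (fun _ : Fin (N + 1) => Bool)).symm
        (fun x : Fin (N + 1) → Bool => if x ∈ A then 1 else 0)
        (fun p => if (Fin.cons p.1 p.2 : Fin (N + 1) → Bool) ∈ A then 1 else 0)
        (by intro x; simp [Fin.consEquiv])
      have e3 : ∀ b, (Sec b).card =
          ∑ y : Fin N → Bool, if (Fin.cons b y : Fin (N + 1) → Bool) ∈ A then 1 else 0 := by
        intro b
        rw [Finset.card_filter]
      rw [e1, e2, Fintype.sum_prod_type, e3, e3, Fintype.sum_bool, add_comm]
    have hdist : ∀ (b c : Bool) (x y : Fin N → Bool),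
        hammingDist (Fin.cons b x : Fin (N + 1) → Bool) (Fin.cons c y) =
          (if b = c then 0 else 1) + hammingDist x y := by
      intro b c x y
      simp only [hammingDist]
      rw [Finset.card_filter, Finset.card_filter, Fin.sum_univ_succ]
      by_cases hbc : b = c
      · simp only [hbc, Fin.cons_zero, Fin.cons_succ, ne_eq, not_true_eq_false, if_false, if_true]
      · simp only [hbc, Fin.cons_zero, Fin.cons_succ, ne_eq, not_false_eq_true, if_false, if_true]
    have hsame : ∀ b, S b * (Sec b).card ≤ K := by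
      intro b
      apply ih (Sec b) (fun x => g (Fin.cons b x)) (fun x => hg _)
      intro x y hy
      have := h (Fin.cons b x) (Fin.cons b y) ((hmem b y).1 hy)
      rw [hdist] at this
      simpa using this
    have hother : ∀ b, S b * (Sec (!b)).card ≤ Real.exp t * K := by
      intro b
      have h1 := ih (Sec (!b)) (fun x => Real.exp (-t) * g (Fin.cons b x))
        (fun x => mul_nonneg (Real.exp_pos _).le (hg _)) (by
          intro x y hy
          have := h (Fin.cons b x) (Fin.cons (!b) y) ((hmem (!b) y).1 hy)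
          rw [hdist] at this
          have hne : ¬ (b = !b) := by cases b <;> simp
          simp only [hne, if_false] at this
          push_cast at this
          rw [mul_add, mul_one, Real.exp_add] at this
          have h2 := mul_le_mul_of_nonneg_left this (Real.exp_pos (-t)).le
          rw [← mul_assoc, ← Real.exp_add, neg_add_cancel, Real.exp_zero, one_mul] at h2
          exact h2)
      rw [← Finset.mul_sum] at h1
      have h3 := mul_le_mul_of_nonneg_left h1 (Real.exp_pos t).le
      have h4 : Real.exp t * (Real.exp (-t) * ∑ x : Fin N → Bool, g (Fin.cons b x) *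
          ((Sec (!b)).card : ℝ)) = S b * (Sec (!b)).card := by
        rw [← mul_assoc, ← Real.exp_add, add_neg_cancel, Real.exp_zero, one_mul,
          ← Finset.sum_mul]
      calc S b * (Sec (!b)).card = Real.exp t * ((Real.exp (-t) *
            ∑ x : Fin N → Bool, g (Fin.cons b x)) * ((Sec (!b)).card : ℝ)) := by
            rw [← mul_assoc, ← mul_assoc, ← Real.exp_add, add_neg_cancel, Real.exp_zero, one_mul]
        _ ≤ _ := h3
    rw [hsum, hcard, pow_succ]
    push_cast
    rcases le_total ((Sec false).card) ((Sec true).card) with hle | hle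
    · have := two_point ht (Nat.cast_nonneg (α := ℝ) (Sec false).card)
        (by exact_mod_cast hle : ((Sec false).card : ℝ) ≤ (Sec true).card) hKpos
        (hsame true) (hsame false) (hother false)
      linarith
    · have := two_point ht (Nat.cast_nonneg (α := ℝ) (Sec true).card)
        (by exact_mod_cast hle : ((Sec true).card : ℝ) ≤ (Sec false).card) hKpos
        (hsame false) (hsame true) (hother true)
      linarith

/-- Talagrand / Amir-Milman blow-up on the cube `Fin N → Bool`. -/
theorem blowup_fin (N : ℕ) (A : Finset (Fin N → Bool)) (θ : ℝ) (hθ : 0 ≤ θ) :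
    ((univ.filter fun x : Fin N → Bool =>
        ∀ y ∈ A, θ * N ≤ (hammingDist x y : ℝ)).card : ℝ) * A.card ≤
      Real.exp (-θ ^ 2 * N) * 4 ^ N := by
  classical
  set B := univ.filter fun x : Fin N → Bool => ∀ y ∈ A, θ * N ≤ (hammingDist x y : ℝ) with hB
  have h := exp_moment (2 * θ) (by positivity) N A
    (fun x => if x ∈ B then Real.exp (2 * θ * (θ * N)) else 0)
    (by intro x; split_ifs <;> positivity)
    (by
      intro x y hy
      split_ifs with hx
      · apply Real.exp_le_exp.2
        apply mul_le_mul_of_nonneg_left _ (by positivity)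
        simp only [hB, mem_filter, mem_univ, true_and] at hx
        exact hx y hy
      · positivity)
  have hs : (∑ x : Fin N → Bool, if x ∈ B then Real.exp (2 * θ * (θ * N)) else 0) =
      B.card * Real.exp (2 * θ * (θ * N)) := by
    rw [Finset.sum_ite_mem, univ_inter, Finset.sum_const, nsmul_eq_mul]
  rw [hs] at h
  have hcosh : 2 + Real.exp (2 * θ) + Real.exp (-(2 * θ)) ≤ 4 * Real.exp (θ ^ 2) := by
    have h1 : 2 + Real.exp (2 * θ) + Real.exp (-(2 * θ)) = 4 * Real.cosh θ ^ 2 := by
      rw [Real.cosh_eq]
      have e1 : Real.exp (2 * θ) = Real.exp θ * Real.exp θ := by rw [← Real.exp_add]; ring_nf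
      have e2 : Real.exp (-(2 * θ)) = Real.exp (-θ) * Real.exp (-θ) := by
        rw [← Real.exp_add]; ring_nf
      have e3 : Real.exp θ * Real.exp (-θ) = 1 := by rw [← Real.exp_add]; simp
      rw [e1, e2]
      nlinarith [e3]
    rw [h1]
    have h2 := Real.cosh_le_exp_half_sq θ
    have h3 : 0 ≤ Real.cosh θ := (Real.cosh_pos θ).le
    have h4 : Real.exp (θ ^ 2) = Real.exp (θ ^ 2 / 2) ^ 2 := by
      rw [← Real.exp_nat_mul]; congr 1; push_cast; ring
    rw [h4]
    have := pow_le_pow_left₀ h3 h2 2
    linarith
  have h5 : (2 + Real.exp (2 * θ) + Real.exp (-(2 * θ))) ^ N ≤ (4 * Real.exp (θ ^ 2)) ^ N := by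
    apply pow_le_pow_left₀ _ hcosh
    positivity
  have h6 : (4 * Real.exp (θ ^ 2)) ^ N = Real.exp (θ ^ 2 * N) * 4 ^ N := by
    rw [mul_pow, ← Real.exp_nat_mul, mul_comm, mul_comm (N : ℝ)]
  have h7 := h.trans (h5.trans_eq h6)
  have h8 := mul_le_mul_of_nonneg_left h7 (Real.exp_pos (-(2 * θ * (θ * N)))).le
  have h9 : Real.exp (-(2 * θ * (θ * N))) * (B.card * Real.exp (2 * θ * (θ * N)) * A.card) =
      B.card * A.card := by
    have : Real.exp (-(2 * θ * (θ * N))) * Real.exp (2 * θ * (θ * N)) = 1 := by
      rw [← Real.exp_add]; simp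
    linear_combination (B.card * A.card : ℝ) * this
  have h10 : Real.exp (-(2 * θ * (θ * N))) * (Real.exp (θ ^ 2 * N) * 4 ^ N) =
      Real.exp (-θ ^ 2 * N) * 4 ^ N := by
    rw [← mul_assoc, ← Real.exp_add]
    congr 2
    ring
  rw [h9, h10] at h8
  exact h8

/-- Talagrand / Amir-Milman blow-up on the cube: if `A` is not too small, almost all points are at
Hamming distance less than `θ N` from `A`. -/
theorem blowup {ι : Type*} [Fintype ι] [DecidableEq ι] (A : Finset (ι → Bool)) (θ : ℝ)
    (hθ : 0 ≤ θ) :
    ((univ.filter fun x : ι → Bool =>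
        ∀ y ∈ A, θ * Fintype.card ι ≤ (hammingDist x y : ℝ)).card : ℝ) * A.card ≤
      Real.exp (-θ ^ 2 * Fintype.card ι) * 4 ^ Fintype.card ι := by
  classical
  let e := Fintype.equivFin ι
  let E : (ι → Bool) ≃ (Fin (Fintype.card ι) → Bool) := Equiv.arrowCongr e (Equiv.refl Bool)
  have hE : ∀ x i, E x i = x (e.symm i) := fun x i => rfl
  have hd : ∀ x y : ι → Bool, hammingDist (E x) (E y) = hammingDist x y := by
    intro x y
    simp only [hammingDist]
    apply Finset.card_bij (fun i _ => e.symm i)
    · intro i hi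
      simpa [hE] using hi
    · intro i _ j _ hij
      exact e.symm.injective hij
    · intro j hj
      refine ⟨e j, ?_, by simp⟩
      simpa [hE] using hj
  have h := blowup_fin (Fintype.card ι) (A.map E.toEmbedding) θ hθ
  rw [Finset.card_map] at h
  have hc : (univ.filter fun x : ι → Bool =>
        ∀ y ∈ A, θ * Fintype.card ι ≤ (hammingDist x y : ℝ)).card =
      (univ.filter fun x : Fin (Fintype.card ι) → Bool =>
        ∀ y ∈ A.map E.toEmbedding, θ * Fintype.card ι ≤ (hammingDist x y : ℝ)).card := by
    apply Finset.card_bij (fun x _ => E x)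
    · intro x hx
      simp only [mem_filter, mem_univ, true_and, mem_map, Equiv.coe_toEmbedding,
        forall_exists_index, and_imp, forall_apply_eq_imp_iff₂] at hx ⊢
      intro y hy
      rw [hd]
      exact hx y hy
    · intro x _ y _ hxy
      exact E.injective hxy
    · intro x hx
      refine ⟨E.symm x, ?_, by simp⟩
      simp only [mem_filter, mem_univ, true_and, mem_map, Equiv.coe_toEmbedding,
        forall_exists_index, and_imp, forall_apply_eq_imp_iff₂] at hx ⊢
      intro y hy
      have := hx y hy
      rw [← hd, Equiv.apply_symm_apply]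
      exact this
  rw [hc]
  exact h

end Pool.Agent.Helper18.SB
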