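import Pool.Agent.Helper60.SB.Defs4

/-!
The cut-off functions on the integers.
-/

open Finset MeasureTheory
open scoped ENNReal Real

namespace Pool.Agent.Helper60.SB

theorem vp_nonneg' (s : ℕ) (k : ℤ) : 0 ≤ vp s k := le_max_left _ _

theorem vp_le_one' (s : ℕ) (k : ℤ) : vp s k ≤ 1 := by
  unfold vp
  exact max_le zero_le_one (min_le_left _ _)

theorem vp_mono' (s : ℕ) (k : ℤ) : vp s k ≤ vp (s + 1) k := by
  unfold vp
  apply max_le_max le_rfl
  apply min_le_min le_rfl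
  have : |(k : ℝ)| / 2 ^ (s + 1) ≤ |(k : ℝ)| / 2 ^ s := by
    apply div_le_div_of_nonneg_left (abs_nonneg _) (by positivity)
    exact pow_le_pow_right₀ (by norm_num) (by omega)
  linarith

theorem vp_cast_abs (k : ℤ) : |(k : ℝ)| = ((|k| : ℤ) : ℝ) := by
  push_cast
  rfl

theorem vp_one' (s : ℕ) (k : ℤ) (h : |k| ≤ 2 ^ s) : vp s k = 1 := by
  unfold vp
  have h1 : |(k : ℝ)| ≤ 2 ^ s := by
    rw [vp_cast_abs]
    exact_mod_cast h
  have h2 : |(k : ℝ)| / 2 ^ s ≤ 1 := (div_le_one (by positivity)).2 h1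
  rw [min_eq_left (by linarith)]
  norm_num

theorem vp_zero' (s : ℕ) (k : ℤ) (h : 2 ^ (s + 1) ≤ |k|) : vp s k = 0 := by
  unfold vp
  have h1 : (2 : ℝ) ^ (s + 1) ≤ |(k : ℝ)| := by
    rw [vp_cast_abs]
    exact_mod_cast h
  have h2 : 2 ≤ |(k : ℝ)| / 2 ^ s := by
    rw [le_div_iff₀ (by positivity)]
    rw [pow_succ] at h1
    linarith
  rw [max_eq_left]
  exact (min_le_right _ _).trans (by linarith)

theorem vp_lin' (s : ℕ) (k : ℤ) (h : 2 ^ s ≤ |k|) (h' : |k| ≤ 2 ^ (s + 1)) :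
    vp s k = 2 - |(k : ℝ)| / 2 ^ s := by
  unfold vp
  have h1 : (2 : ℝ) ^ s ≤ |(k : ℝ)| := by
    rw [vp_cast_abs]
    exact_mod_cast h
  have h1' : |(k : ℝ)| ≤ 2 ^ (s + 1) := by
    rw [vp_cast_abs]
    exact_mod_cast h'
  have h2 : 1 ≤ |(k : ℝ)| / 2 ^ s := by
    rw [le_div_iff₀ (by positivity)]
    linarith
  have h3 : |(k : ℝ)| / 2 ^ s ≤ 2 := by
    rw [div_le_iff₀ (by positivity)]
    rw [pow_succ] at h1'
    linarith
  rw [min_eq_right (by linarith), max_eq_right (by linarith)]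

theorem vp_diff' (s : ℕ) (k : ℤ) : |vp s (k + 1) - vp s k| ≤ 1 / 2 ^ s := by
  unfold vp
  have h1 : ∀ a b : ℝ, |max 0 (min 1 a) - max 0 (min 1 b)| ≤ |a - b| := by
    intro a b
    have e1 := abs_max_sub_max_le_max 0 (min 1 a) 0 (min 1 b)
    have e2 := abs_min_sub_min_le_max 1 a 1 b
    rw [sub_self, abs_zero, max_eq_right (abs_nonneg (min 1 a - min 1 b))] at e1
    rw [sub_self, abs_zero, max_eq_right (abs_nonneg (a - b))] at e2
    exact e1.trans e2
  refine (h1 _ _).trans ?_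
  have e : (2 - |((k + 1 : ℤ) : ℝ)| / 2 ^ s) - (2 - |(k : ℝ)| / 2 ^ s) =
      (|(k : ℝ)| - |((k + 1 : ℤ) : ℝ)|) / 2 ^ s := by ring
  rw [e, abs_div, abs_of_pos (by positivity : (0 : ℝ) < 2 ^ s)]
  apply div_le_div_of_nonneg_right _ (by positivity)
  refine (abs_abs_sub_abs_le_abs_sub _ _).trans ?_
  push_cast
  have : (k : ℝ) - ((k : ℝ) + 1) = -1 := by ring
  rw [this]
  norm_num

theorem vp_diff2' (s : ℕ) (k : ℤ) (h1 : k + 1 ≠ 2 ^ s) (h2 : k + 1 ≠ -2 ^ s)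
    (h3 : k + 1 ≠ 2 ^ (s + 1)) (h4 : k + 1 ≠ -2 ^ (s + 1)) :
    vp s (k + 2) - 2 * vp s (k + 1) + vp s k = 0 := by
  have hN : (0 : ℤ) < 2 ^ s := by positivity
  have hN2 : (2 : ℤ) ^ (s + 1) = 2 * 2 ^ s := by ring
  rw [hN2] at h3 h4
  have one : ∀ j : ℤ, -2 ^ s ≤ j → j ≤ 2 ^ s → vp s j = 1 := fun j a b =>
    vp_one' s j (abs_le.2 ⟨a, b⟩)
  have zr : ∀ j : ℤ, 2 * 2 ^ s ≤ j → vp s j = 0 := fun j a =>
    vp_zero' s j (by rw [hN2]; exact a.trans (le_abs_self _))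
  have zl : ∀ j : ℤ, j ≤ -(2 * 2 ^ s) → vp s j = 0 := fun j a =>
    vp_zero' s j (by rw [hN2]; exact (by omega : 2 * 2 ^ s ≤ -j).trans (neg_le_abs _))
  have lr : ∀ j : ℤ, 2 ^ s ≤ j → j ≤ 2 * 2 ^ s → vp s j = 2 - (j : ℝ) / 2 ^ s := by
    intro j a b
    have hj : |j| = j := abs_of_nonneg (by omega)
    rw [vp_lin' s j (by rw [hj]; exact a) (by rw [hj, hN2]; exact b), vp_cast_abs, hj]
  have ll : ∀ j : ℤ, -(2 * 2 ^ s) ≤ j → j ≤ -2 ^ s → vp s j = 2 + (j : ℝ) / 2 ^ s := by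
    intro j a b
    have hj : |j| = -j := abs_of_nonpos (by omega)
    rw [vp_lin' s j (by rw [hj]; omega) (by rw [hj, hN2]; omega), vp_cast_abs, hj]
    push_cast
    ring
  rcases lt_or_ge (k + 1) (-(2 * 2 ^ s)) with c1 | c1
  · rw [zl k (by omega), zl (k + 1) (by omega), zl (k + 2) (by omega)]
    ring
  rcases lt_or_ge (k + 1) (-2 ^ s) with c2 | c2
  · rw [ll k (by omega) (by omega), ll (k + 1) (by omega) (by omega),
      ll (k + 2) (by omega) (by omega)]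
    push_cast
    ring
  rcases lt_or_ge (k + 1) (2 ^ s) with c3 | c3
  · rw [one k (by omega) (by omega), one (k + 1) (by omega) (by omega),
      one (k + 2) (by omega) (by omega)]
    ring
  rcases lt_or_ge (k + 1) (2 * 2 ^ s) with c4 | c4
  · rw [lr k (by omega) (by omega), lr (k + 1) (by omega) (by omega),
      lr (k + 2) (by omega) (by omega)]
    push_cast
    ring
  · rw [zr k (by omega), zr (k + 1) (by omega), zr (k + 2) (by omega)]
    ring

theorem vp_diff2_le' (s : ℕ) (k : ℤ) :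
    |vp s (k + 2) - 2 * vp s (k + 1) + vp s k| ≤
      ∑ c ∈ ({2 ^ s, -2 ^ s, 2 ^ (s + 1), -2 ^ (s + 1)} : Finset ℤ),
        if k = c - 1 then 2 / (2 : ℝ) ^ s else 0 := by
  by_cases h : k + 1 ∈ ({2 ^ s, -2 ^ s, 2 ^ (s + 1), -2 ^ (s + 1)} : Finset ℤ)
  · have e1 : |vp s (k + 2) - 2 * vp s (k + 1) + vp s k| ≤ 2 / 2 ^ s := by
      have a1 := vp_diff' s (k + 1)
      have a2 := vp_diff' s k
      have e : vp s (k + 2) - 2 * vp s (k + 1) + vp s k =
          (vp s (k + 1 + 1) - vp s (k + 1)) - (vp s (k + 1) - vp s k) := by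
        rw [show k + 1 + 1 = k + 2 by ring]
        ring
      rw [e]
      refine (abs_sub _ _).trans ?_
      refine (add_le_add a1 a2).trans (le_of_eq ?_)
      ring
    refine e1.trans ?_
    have := Finset.single_le_sum (f := fun c : ℤ => if k = c - 1 then 2 / (2 : ℝ) ^ s else 0)
      (fun c _ => by positivity) h
    refine le_trans (le_of_eq ?_) this
    simp
  · simp only [Finset.mem_insert, Finset.mem_singleton, not_or] at h
    rw [vp_diff2' s k h.1 h.2.1 h.2.2.1 h.2.2.2, abs_zero]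
    exact Finset.sum_nonneg fun c _ => by positivity

theorem vp_sum_diff2' (s : ℕ) (I : Finset ℤ) :
    ∑ k ∈ I, |vp s (k + 2) - 2 * vp s (k + 1) + vp s k| ≤ 8 / 2 ^ s := by
  refine (Finset.sum_le_sum fun k _ => vp_diff2_le' s k).trans ?_
  rw [Finset.sum_comm]
  have h1 : ∀ c ∈ ({2 ^ s, -2 ^ s, 2 ^ (s + 1), -2 ^ (s + 1)} : Finset ℤ),
      (∑ k ∈ I, if k = c - 1 then 2 / (2 : ℝ) ^ s else 0) ≤ 2 / 2 ^ s := by
    intro c _
    rw [Finset.sum_ite_eq']
    split_ifs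
    · exact le_rfl
    · positivity
  refine (Finset.sum_le_card_nsmul _ _ _ h1).trans ?_
  have h2 : ({2 ^ s, -2 ^ s, 2 ^ (s + 1), -2 ^ (s + 1)} : Finset ℤ).card ≤ 4 :=
    Finset.card_le_four
  rw [nsmul_eq_mul]
  have h3 : ((({2 ^ s, -2 ^ s, 2 ^ (s + 1), -2 ^ (s + 1)} : Finset ℤ).card : ℕ) : ℝ) ≤ 4 := by
    exact_mod_cast h2
  calc _ ≤ 4 * (2 / (2 : ℝ) ^ s) := by gcongr
    _ = 8 / 2 ^ s := by ring

theorem eta_succ' (s : ℕ) (k : ℤ) : eta (s + 1) k = vp (s + 1) k - vp s k := by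
  unfold eta
  simp

theorem eta_zero' (k : ℤ) : eta 0 k = vp 0 k := by
  unfold eta
  simp

theorem sum_eta (M : ℕ) (k : ℤ) (hk : |k| ≤ 2 ^ M) : ∑ s ∈ range (M + 1), eta s k = 1 := by
  have : ∀ n, ∑ s ∈ range (n + 1), eta s k = vp n k := by
    intro n
    induction n with
    | zero => simp [eta_zero']
    | succ n ih => rw [Finset.sum_range_succ, ih, eta_succ']; ring
  rw [this, vp_one' M k hk]

theorem eta_nonneg (s : ℕ) (k : ℤ) : 0 ≤ eta s k := by
  cases s with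
  | zero => rw [eta_zero']; exact vp_nonneg' _ _
  | succ s => rw [eta_succ']; linarith [vp_mono' s k]

theorem eta_le_one (s : ℕ) (k : ℤ) : eta s k ≤ 1 := by
  cases s with
  | zero => rw [eta_zero']; exact vp_le_one' _ _
  | succ s => rw [eta_succ']; linarith [vp_le_one' (s + 1) k, vp_nonneg' s k]

theorem eta_support (s : ℕ) (hs : 1 ≤ s) (k : ℤ) (h : eta s k ≠ 0) :
    2 ^ (s - 1) < |k| ∧ |k| < 2 ^ (s + 1) := by
  obtain ⟨t, rfl⟩ : ∃ t, s = t + 1 := ⟨s - 1, by omega⟩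
  rw [eta_succ'] at h
  simp only [Nat.add_sub_cancel]
  constructor
  · by_contra hc
    rw [not_lt] at hc
    apply h
    have : (2 : ℤ) ^ t ≤ 2 ^ (t + 1) := pow_le_pow_right₀ (by norm_num) (by omega)
    rw [vp_one' t k hc, vp_one' (t + 1) k (hc.trans this)]
    ring
  · by_contra hc
    rw [not_lt] at hc
    apply h
    have : (2 : ℤ) ^ (t + 1) ≤ 2 ^ (t + 1 + 1) := pow_le_pow_right₀ (by norm_num) (by omega)
    rw [vp_zero' t k (this.trans hc), vp_zero' (t + 1) k hc]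
    ring

theorem eta_eq_zero (s : ℕ) (k : ℤ) (h1 : k.natAbs.size ≠ s) (h2 : k.natAbs.size ≠ s + 1) :
    eta s k = 0 := by
  have hk : |k| = (k.natAbs : ℤ) := Int.abs_eq_natAbs k
  rcases lt_or_gt_of_ne h1 with h | h
  · obtain ⟨t, rfl⟩ : ∃ t, s = t + 1 := ⟨s - 1, by omega⟩
    have h3 : k.natAbs < 2 ^ t := by
      rw [← Nat.size_le]
      omega
    have h4 : |k| ≤ 2 ^ t := by
      rw [hk]
      exact_mod_cast h3.le
    have : (2 : ℤ) ^ t ≤ 2 ^ (t + 1) := pow_le_pow_right₀ (by norm_num) (by omega)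
    rw [eta_succ', vp_one' t k h4, vp_one' (t + 1) k (h4.trans this)]
    ring
  · have h3 : 2 ^ (s + 1) ≤ k.natAbs := by
      rw [← Nat.lt_size]
      omega
    have h4 : 2 ^ (s + 1) ≤ |k| := by
      rw [hk]
      exact_mod_cast h3
    cases s with
    | zero => rw [eta_zero', vp_zero' 0 k h4]
    | succ t =>
      have : (2 : ℤ) ^ (t + 1) ≤ 2 ^ (t + 1 + 1) := pow_le_pow_right₀ (by norm_num) (by omega)
      rw [eta_succ', vp_zero' t k (this.trans h4), vp_zero' (t + 1) k h4]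
      ring

theorem eta_diff (s : ℕ) (k : ℤ) : |eta s (k + 1) - eta s k| ≤ 4 / 2 ^ s := by
  cases s with
  | zero =>
    rw [eta_zero', eta_zero']
    refine (vp_diff' 0 k).trans ?_
    norm_num
  | succ t =>
    rw [eta_succ', eta_succ']
    have a1 := vp_diff' (t + 1) k
    have a2 := vp_diff' t k
    have e : vp (t + 1) (k + 1) - vp t (k + 1) - (vp (t + 1) k - vp t k) =
        (vp (t + 1) (k + 1) - vp (t + 1) k) - (vp t (k + 1) - vp t k) := by ring
    rw [e]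
    refine (abs_sub _ _).trans ((add_le_add a1 a2).trans ?_)
    rw [pow_succ]
    have : (0 : ℝ) < 2 ^ t := by positivity
    have e2 : (1 : ℝ) / (2 ^ t * 2) + 1 / 2 ^ t = (3 / 2) / 2 ^ t := by
      field_simp
      norm_num
    have e3 : (4 : ℝ) / (2 ^ t * 2) = 2 / 2 ^ t := by
      field_simp
      norm_num
    rw [e2, e3]
    gcongr
    norm_num

theorem eta_diff2 (s : ℕ) :
    ∑ k ∈ Finset.Icc (-2 ^ (s + 1) - 2 : ℤ) (2 ^ (s + 1)),
      |eta s (k + 2) - 2 * eta s (k + 1) + eta s k| ≤ 64 / 2 ^ s := by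
  cases s with
  | zero =>
    simp only [eta_zero']
    refine (vp_sum_diff2' 0 _).trans ?_
    norm_num
  | succ t =>
    simp only [eta_succ']
    have e : ∀ k : ℤ, |vp (t + 1) (k + 2) - vp t (k + 2) - 2 * (vp (t + 1) (k + 1) - vp t (k + 1)) +
        (vp (t + 1) k - vp t k)| ≤ |vp (t + 1) (k + 2) - 2 * vp (t + 1) (k + 1) + vp (t + 1) k| +
          |vp t (k + 2) - 2 * vp t (k + 1) + vp t k| := by
      intro k
      have : vp (t + 1) (k + 2) - vp t (k + 2) - 2 * (vp (t + 1) (k + 1) - vp t (k + 1)) +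
        (vp (t + 1) k - vp t k) = (vp (t + 1) (k + 2) - 2 * vp (t + 1) (k + 1) + vp (t + 1) k) -
          (vp t (k + 2) - 2 * vp t (k + 1) + vp t k) := by ring
      rw [this]
      exact abs_sub _ _
    refine (Finset.sum_le_sum fun k _ => e k).trans ?_
    rw [Finset.sum_add_distrib]
    refine (add_le_add (vp_sum_diff2' (t + 1) _) (vp_sum_diff2' t _)).trans ?_
    rw [pow_succ]
    have : (0 : ℝ) < 2 ^ t := by positivity
    have e2 : (8 : ℝ) / (2 ^ t * 2) + 8 / 2 ^ t = 12 / 2 ^ t := by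
      field_simp
      norm_num
    have e3 : (64 : ℝ) / (2 ^ t * 2) = 32 / 2 ^ t := by
      field_simp
      norm_num
    rw [e2, e3]
    gcongr
    norm_num

end Pool.Agent.Helper60.SB
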